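import Mathlib
import Pool.Agent.FJ.NUM

/-!
# Fujita's very ampleness conjecture for all projective bundles over curves

Let `C` be a smooth projective curve over an algebraically closed field `k` of characteristic zero,
given by its function field `K`, a finite extension of `k(x)`, let `E` be a vector bundle of rank
`n` on `C`, and `X = ℙ(E)` the projective bundle of one-dimensional quotients of the fibres, so
`dim X = n`, with projection `π`. Let `A_i = O(m_i) ⊗ π^* B_i`, `i = 1, ..., n + 2`, be ample line
bundles on `X`. As `K_X = O(-n) ⊗ π^*(K_C ⊗ det E)`, one has
`K_X ⊗ A_1 ⊗ ... ⊗ A_(n+2) = O(d) ⊗ π^* M` with `d = ∑ m_i - n` and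
`M = K_C ⊗ det E ⊗ B_1 ⊗ ... ⊗ B_(n+2)`, with global sections `H⁰(C, Sym^d E ⊗ M)`.
The theorem says that this line bundle is very ample. If all `A_i` are the same line bundle `A`,
this is Fujita's very ampleness conjecture for `X` and `A`.

The definitions are in `Pool/Agent/Helper38/Scroll/P1.lean` (orders of rational functions at the
points of the projective line, local rings), `Pool/Agent/Helper38/Scroll/Statement.lean` (curves,
vector bundles, quotient bundles, differentials) and `Pool/Agent/FJ/Statement.lean` (line bundles
on `ℙ(E)`, their sections, very ampleness). Main steps of the proof: Serre duality for families of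
lattices (`Helper38/Scroll/Duality.lean`); a functional on the subsheaf of sections vanishing at a
subscheme of length two gives, by rank factorization, a multilinear form of determinants on a
quotient bundle of `E` with few poles (`FJ/FAC.lean`, `FJ/MUL.lean`, `FJ/LOC.lean`); the degrees of
the values of multilinear forms on vector bundles are bounded below by the sum of the minimal slopes
(`FJ/S/Main.lean`, in characteristic zero: tensor products of semistable bundles are semistable);
the numerical contradiction is in `FJ/NUM.lean`.
-/

set_option autoImplicit false

open Pool.Agent.Helper38.Scroll Pool.Agent.FJ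

namespace Pool.Agent.Helper38.Kept.ProjectiveBundlesKept

/-- **Fujita's very ampleness conjecture for projective bundles over curves.** If
`A_i = O(m_i) ⊗ π^* B_i`, `i = 1, ..., n + 2`, are ample line bundles on `ℙ(E)` (`β i` are local
generators of `B_i`), then `K_X ⊗ A_1 ⊗ ... ⊗ A_(n+2)` is very ample. (The second part says that
local generators `w a` of the canonical sheaf, as required in the first part, exist.) -/
theorem result {k K : Type} [Field k] [IsAlgClosed k] [CharZero k] [Field K]
    [Algebra (RatFunc k) K] [Algebra k K] [IsScalarTower k (RatFunc k) K]
    [FiniteDimensional (RatFunc k) K] :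
    (∀ (n : ℕ) (g : Option k → Matrix (Fin n) (Fin n) K), Curve.IsBundle g →
      ∀ (m : Fin (n + 2) → ℕ) (β : Fin (n + 2) → Option k → K),
        (∀ i, IsLineBundle (β i)) → (∀ i, IsPositive g (m i) (β i)) →
        ∀ w : Option k → K, (∀ a, Curve.IsCanonicalGenerator a (w a)) →
          IsVeryAmple g (∑ i, m i - n) (fun a => w a * (g a).det * ∏ i, β i a)) ∧
    ∃ w : Option k → K, ∀ a, Curve.IsCanonicalGenerator a (w a) :=
  ⟨fun _ _ hg _ _ hβ hA _ hw => main hg hβ hA hw, light_exists_canonicalGenerator⟩

end Pool.Agent.Helper38.Kept.ProjectiveBundlesKept
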